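import Pool.Agent.MWI.StmtsE

set_option autoImplicit false

/-!
# Squad MWI, row IM2: a factor of the main block which contains a letter z
-/

namespace Pool.Agent.MWI.H51

open Pool.Agent.Helper14_MV Pool.Agent.Helper2_MV Pool.Agent.MWF

/-! ### pure lists -/

theorem split_unique {z : ℕ} : ∀ {A B A' B' : List ℕ}, A ++ z :: B = A' ++ z :: B' → z ∉ A →
    z ∉ A' → A = A' ∧ B = B' := by
  intro A
  induction A with
  | nil =>
    intro B A' B' h _ h2
    cases A' with
    | nil => exact ⟨rfl, by simpa using h⟩
    | cons x l =>
      simp only [List.nil_append, List.cons_append, List.cons.injEq] at h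
      exact absurd (by simp [h.1]) h2
  | cons y A ih =>
    intro B A' B' h h1 h2
    cases A' with
    | nil =>
      simp only [List.nil_append, List.cons_append, List.cons.injEq] at h
      exact absurd (by simp [h.1]) h1
    | cons x l =>
      simp only [List.cons_append, List.cons.injEq] at h
      obtain ⟨e1, e2⟩ := ih h.2 (fun hh => h1 (List.mem_cons_of_mem _ hh))
        (fun hh => h2 (List.mem_cons_of_mem _ hh))
      exact ⟨by rw [h.1, e1], e2⟩

theorem first_t : ∀ {A B A' B' : List ℕ}, A ++ B = A' ++ B' → (∀ c ∈ A, c % 3 ≠ 1) →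
    (∀ c ∈ A', c % 3 ≠ 1) → (∀ x l, B = x :: l → x % 3 = 1) → (∀ x l, B' = x :: l → x % 3 = 1) →
    A = A' ∧ B = B' := by
  intro A
  induction A with
  | nil =>
    intro B A' B' h _ h2 h3 _
    cases A' with
    | nil => exact ⟨rfl, by simpa using h⟩
    | cons x l =>
      exact absurd (h3 x (l ++ B') (by simpa using h)) (h2 x (by simp))
  | cons y A ih =>
    intro B A' B' h h1 h2 h3 h4
    cases A' with
    | nil =>
      exact absurd (h4 y (A ++ B) (by simpa using h.symm)) (h1 y (by simp))
    | cons x l =>
      simp only [List.cons_append, List.cons.injEq] at h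
      obtain ⟨e1, e2⟩ := ih h.2 (fun c hc => h1 c (List.mem_cons_of_mem _ hc))
        (fun c hc => h2 c (List.mem_cons_of_mem _ hc)) h3 h4
      exact ⟨by rw [h.1, e1], e2⟩

/-- the letter `z` is right of `A` -/
theorem right_of {z : ℕ} {A R U T : List ℕ} (h : A ++ R = U ++ z :: T) (hz : z ∉ A) :
    ∃ r, U = A ++ r ∧ R = r ++ z :: T := by
  rcases List.append_eq_append_iff.mp h with ⟨a', h1, h2⟩ | ⟨c', h1, h2⟩
  · exact ⟨a', h1, h2⟩
  · cases c' with
    | nil => exact ⟨[], by simpa using h1.symm, by simpa using h2.symm⟩
    | cons x l =>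
      simp only [List.cons_append, List.cons.injEq] at h2
      exact absurd (by rw [h1, h2.1]; simp) hz

/-- the letter `z` is left of `A` -/
theorem left_of {z : ℕ} {A R U T : List ℕ} (h : R ++ A = U ++ z :: T) (hz : z ∉ A) :
    ∃ r, R = U ++ z :: r ∧ r ++ A = T := by
  rcases List.append_eq_append_iff.mp h with ⟨a', _, h2⟩ | ⟨c', h1, h2⟩
  · exact absurd (by rw [h2]; simp) hz
  · cases c' with
    | nil => exact absurd (by rw [show A = z :: T by simpa using h2.symm]; simp) hz
    | cons x l =>
      simp only [List.cons_append, List.cons.injEq] at h2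
      exact ⟨l, by rw [h1, h2.1], h2.2.symm⟩

theorem last_mem {u g X : List ℕ} {t : ℕ} (h : u ++ g = X ++ [t]) (hg : g ≠ []) :
    ∃ g', g = g' ++ [t] ∧ X = u ++ g' := by
  rcases List.eq_nil_or_concat g with h0 | ⟨g', x, h0⟩
  · exact absurd h0 hg
  · rw [List.concat_eq_append] at h0
    rw [h0, ← List.append_assoc] at h
    obtain ⟨e1, e2⟩ := List.append_inj' h rfl
    simp only [List.cons.injEq, and_true] at e2
    exact ⟨g', by rw [h0, e2], e1.symm⟩

theorem btw_mem {y z : ℕ} {M A B : List ℕ} (hb : MVD.Btw y z M) (hM : M = A ++ z :: B)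
    (h1 : M.count z = 1) : y ∈ A ∧ y ∈ B := by
  obtain ⟨a, b, c, h, hz⟩ := hb
  obtain ⟨p, q, rfl⟩ := List.append_of_mem hz
  have hA : z ∉ A := by
    intro hh
    have := List.count_pos_iff.mpr hh
    rw [hM, List.count_append, List.count_cons_self] at h1
    omega
  have e : M = (a ++ y :: p) ++ z :: (q ++ y :: c) := by
    rw [h]; simp
  have hA' : z ∉ a ++ y :: p := by
    intro hh
    have := List.count_pos_iff.mpr hh
    rw [e, List.count_append, List.count_cons_self] at h1
    omega
  obtain ⟨e1, e2⟩ := split_unique (hM.symm.trans e) hA hA'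
  exact ⟨by rw [e1]; simp, by rw [e2]; simp⟩

/-- in `pl L` the letter before `z` is a `t` and the next letter is a `t` -/
theorem pl_z : ∀ (L : List ℕ) {A B : List ℕ} {z : ℕ}, z % 3 = 2 → pl L = A ++ z :: B →
    (A = [] ∨ ∃ A' t, A = A' ++ [t] ∧ t % 3 = 1) ∧ ∃ t B', B = t :: B' ∧ t % 3 = 1 := by
  intro L
  induction L with
  | nil => intro A B z _ h; simp [pl] at h
  | cons i L ih =>
    intro A B z hz h
    have e : pl (i :: L) = (3 * i + 2) :: (3 * i + 1) :: pl L := by simp [pl]
    rw [e] at h
    cases A with
    | nil =>
      simp only [List.nil_append, List.cons.injEq] at h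
      exact ⟨Or.inl rfl, 3 * i + 1, pl L, h.2.symm, by omega⟩
    | cons x A =>
      simp only [List.cons_append, List.cons.injEq] at h
      obtain ⟨hx, h⟩ := h
      cases A with
      | nil =>
        simp only [List.nil_append, List.cons.injEq] at h
        omega
      | cons y A =>
        simp only [List.cons_append, List.cons.injEq] at h
        obtain ⟨hy, h⟩ := h
        obtain ⟨h1, h2⟩ := ih hz h
        refine ⟨Or.inr ?_, h2⟩
        rcases h1 with h1 | ⟨A', t, h1, ht⟩
        · exact ⟨[x], y, by rw [h1]; rfl, by omega⟩
        · exact ⟨x :: y :: A', t, by rw [h1]; rfl, ht⟩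

/-- in `pr L` the letter before `z` is a `t` and the next letter is a `t` -/
theorem pr_z : ∀ (L : List ℕ) {A B : List ℕ} {z : ℕ}, z % 3 = 2 → pr L = A ++ z :: B →
    (∃ A' t, A = A' ++ [t] ∧ t % 3 = 1) ∧ ∀ x l, B = x :: l → x % 3 = 1 := by
  intro L
  induction L with
  | nil => intro A B z _ h; simp [pr] at h
  | cons i L ih =>
    intro A B z hz h
    have e : pr (i :: L) = (3 * i + 1) :: (3 * i + 2) :: pr L := by simp [pr]
    rw [e] at h
    cases A with
    | nil =>
      simp only [List.nil_append, List.cons.injEq] at h
      omega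
    | cons x A =>
      simp only [List.cons_append, List.cons.injEq] at h
      obtain ⟨hx, h⟩ := h
      cases A with
      | nil =>
        simp only [List.nil_append, List.cons.injEq] at h
        refine ⟨⟨[], x, rfl, by omega⟩, ?_⟩
        intro y l hB
        rw [← h.2] at hB
        cases L with
        | nil => simp [pr] at hB
        | cons i' L' =>
          rw [show pr (i' :: L') = (3 * i' + 1) :: (3 * i' + 2) :: pr L' by simp [pr]] at hB
          simp only [List.cons.injEq] at hB
          omega
      | cons y A =>
        simp only [List.cons_append, List.cons.injEq] at h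
        obtain ⟨hy, h⟩ := h
        obtain ⟨⟨A', t, h1, ht⟩, h2⟩ := ih hz h
        exact ⟨⟨x :: y :: A', t, by rw [h1]; rfl, ht⟩, h2⟩

theorem pr_head {L Y : List ℕ} (hY : ∀ a l, Y = a :: l → a % 3 = 1) :
    ∀ x l, pr L ++ Y = x :: l → x % 3 = 1 := by
  intro x l h
  cases L with
  | nil => exact hY x l (by simpa [pr] using h)
  | cons i L =>
    rw [show pr (i :: L) = (3 * i + 1) :: (3 * i + 2) :: pr L by simp [pr]] at h
    simp only [List.cons_append, List.cons.injEq] at h
    omega

theorem mem_pr {L : List ℕ} {E : ℕ} (h : 3 * E + 2 ∈ pr L) : E ∈ L := by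
  simp only [pr, List.mem_flatMap, List.mem_cons, List.not_mem_nil, or_false] at h
  obtain ⟨i, hi, h | h⟩ := h
  · omega
  · have : E = i := by omega
    rw [this]; exact hi

/-! ### counts in the main block -/

theorem mem_zz {L : List ℕ} {x : ℕ} : x ∈ zz L ↔ ∃ i ∈ L, 3 * i + 2 = x := by
  simp [zz]

theorem count_M_z {m E : ℕ} {M : List ℕ} (hn : (idx m).Nodup)
    (hp : M.Perm (0 :: 0 :: 3 :: 3 :: 6 :: 6 :: zz (idx m))) (hE : 3 * E + 2 ∈ M) :
    M.count (3 * E + 2) = 1 ∧ E ∈ idx m := by
  have hm := hp.mem_iff.mp hE
  simp only [List.mem_cons] at hm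
  have hm' : 3 * E + 2 ∈ zz (idx m) := by
    rcases hm with h | h | h | h | h | h | h
    · omega
    · omega
    · omega
    · omega
    · omega
    · omega
    · exact h
  have hnd : (zz (idx m)).Nodup := by
    refine hn.map ?_
    intro x y hxy
    simp only at hxy
    omega
  have h1 := List.count_eq_one_of_mem hnd hm'
  refine ⟨?_, ?_⟩
  · rw [hp.count_eq]
    rw [List.count_cons_of_ne (by omega), List.count_cons_of_ne (by omega),
      List.count_cons_of_ne (by omega), List.count_cons_of_ne (by omega),
      List.count_cons_of_ne (by omega), List.count_cons_of_ne (by omega), h1]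
  · obtain ⟨i, hi, h⟩ := mem_zz.mp hm'
    have : i = E := by omega
    rw [← this]; exact hi

theorem count_M_name {m j : ℕ} {M : List ℕ} (hj : j < 3)
    (hp : M.Perm (0 :: 0 :: 3 :: 3 :: 6 :: 6 :: zz (idx m))) : M.count (3 * j) = 2 := by
  have h0 : (zz (idx m)).count (3 * j) = 0 := by
    rw [List.count_eq_zero]
    intro h
    obtain ⟨i, _, h⟩ := mem_zz.mp h
    omega
  rw [hp.count_eq]
  have hj' : j = 0 ∨ j = 1 ∨ j = 2 := by omega
  rcases hj' with rfl | rfl | rfl
  · simpa using h0
  · simpa using h0
  · simpa using h0

/-! ### the exchange -/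

/-- exchange of `x y` in the main block, when `x y` occurs also behind it -/
theorem exch {β : FIC} (hl : Lm β) (x y : ℕ) (A B C : List ℕ) :
    RR β (A ++ x :: y :: (B ++ x :: y :: C)) (A ++ y :: x :: (B ++ x :: y :: C)) := by
  have h := RR.sub (fun c => if c = 0 then [x] else if c = 1 then [y] else B) hl
  have h' : RR β (x :: y :: (B ++ [x, y])) (y :: x :: (B ++ [x, y])) := by
    simpa using h
  have h2 := RR.append (RR.refl A) (RR.append h' (RR.refl C))
  simpa using h2

/-- the new word is in `SS` and its main block is the exchanged one -/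
theorem main_ex (hV : VinStmt) (hF : FctStmt) {β : FIC} {P Q : List ℕ} {m : ℕ}
    (H : HyE β P Q m) {s e : Bool} {w M Y : List ℕ} (hs : SS β P Q m s e w)
    (hf : Fct P Q m s e w M Y) {x y : ℕ} {M1 M2 Y1 Y2 : List ℕ} (hM : M = M1 ++ x :: y :: M2)
    (hY : Y = Y1 ++ x :: y :: Y2) :
    ∃ Y'', Fct P Q m s e (pl (stL P) ++ ((M1 ++ y :: x :: M2) ++ (pr (stQ Q) ++ Y)))
      (M1 ++ y :: x :: M2) Y'' := by
  have hr : RR β w (pl (stL P) ++ ((M1 ++ y :: x :: M2) ++ (pr (stQ Q) ++ Y))) := by
    have h := exch H.lm x y (pl (stL P) ++ M1) (M2 ++ (pr (stQ Q) ++ Y1)) Y2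
    rw [hf.eq, hM, hY]
    simpa using h
  have hs' := hV β H.iso P Q m s e _ _ hs hr
  obtain ⟨M'', Y'', hf''⟩ := hF β P Q m H s e _ hs'
  have he := hf''.eq
  have he' := List.append_cancel_left he
  have hMt : ∀ c ∈ M1 ++ y :: x :: M2, c % 3 ≠ 1 := by
    intro c hc
    refine hf.tM c ?_
    rw [hM]
    simp only [List.mem_append, List.mem_cons] at hc ⊢
    tauto
  obtain ⟨e1, _⟩ := first_t he' hMt hf''.tM (pr_head hf.hY) (pr_head hf''.hY)
  refine ⟨Y'', ?_⟩
  rw [e1]
  rw [e1] at hf''
  exact hf''

/-- Row IM2. -/
theorem im2 (hV : VinStmt) (hF : FctStmt) (hC : CvfStmt) (hP : PjsStmt) : Im2Stmt := by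
  intro β P Q m H s e w M Y hs hf a g c hM hocc E hE
  have hnd : (idx m).Nodup := (hP P Q m 0 0 (by norm_num)).2.2.2.2.2.1
  have hidx : ∀ E, E ∈ idx m ↔ E < 7 * m := (hP P Q m 0 0 (by norm_num)).2.2.2.2.2.2
  have hEM : 3 * E + 2 ∈ M := by rw [hM]; simp [hE]
  obtain ⟨hcz, hEi⟩ := count_M_z hnd hf.pM hEM
  have hE7 := (hidx E).mp hEi
  have hgt : ∀ x ∈ g, x % 3 ≠ 1 := by
    intro x hx
    exact hf.tM x (by rw [hM]; simp [hx])
  -- `z` is not in `a`, `c`
  have hcg : 0 < g.count (3 * E + 2) := List.count_pos_iff.mpr hE
  have hza : 3 * E + 2 ∉ a := by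
    intro hh
    have := List.count_pos_iff.mpr hh
    rw [hM, List.count_append, List.count_append] at hcz
    omega
  have hzc : 3 * E + 2 ∉ c := by
    intro hh
    have := List.count_pos_iff.mpr hh
    rw [hM, List.count_append, List.count_append] at hcz
    omega
  obtain ⟨g1, g2, hg⟩ := List.append_of_mem hE
  have hg1t : ∀ x ∈ g1, x % 3 ≠ 1 := fun x hx => hgt x (by rw [hg]; simp [hx])
  have hg2t : ∀ x ∈ g2, x % 3 ≠ 1 := fun x hx => hgt x (by rw [hg]; simp [hx])
  have key : g1 = [] ∧ g2 = [] := by
    rcases hocc with ⟨u, v, h⟩ | ⟨u, v, h⟩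
    · -- left of the main block
      have h' : pl (stL P) ++ a = (u ++ g1) ++ (3 * E + 2) :: (g2 ++ v) := by
        rw [h, hg]; simp
      obtain ⟨r, hr1, hr2⟩ := left_of h' hza
      obtain ⟨k1, t, B', k2, ht⟩ := pl_z (stL P) (by omega) hr1
      constructor
      · by_contra hg1
        rcases k1 with k1 | ⟨A', t', k1, ht'⟩
        · exact hg1 (List.append_eq_nil_iff.mp k1).2
        · obtain ⟨g', e1, _⟩ := last_mem k1 hg1
          exact hg1t t' (by rw [e1]; simp) ht'
      · cases g2 with
        | nil => rfl
        | cons x l =>
          rw [k2] at hr2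
          simp only [List.cons_append, List.cons.injEq] at hr2
          exact absurd (by rw [← hr2.1]; exact ht) (hg2t x (by simp))
    · -- right of the main block
      have h' : c ++ (pr (stQ Q) ++ Y) = (u ++ g1) ++ (3 * E + 2) :: (g2 ++ v) := by
        rw [h, hg]; simp
      obtain ⟨r, hr1, hr2⟩ := right_of h' hzc
      by_cases hzY : 3 * E + 2 ∈ Y
      · -- `z` is in `Y` or in `pr (stQ Q)`: locate
        rcases List.append_eq_append_iff.mp hr2 with ⟨r3, k1, k2⟩ | ⟨c', k1, k2⟩
        · -- in `Y`
          have hzf : 3 * E + 2 ∈ pr (st3 Q) := by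
            rw [← hf.fY, List.mem_filter]
            refine ⟨hzY, ?_⟩
            simp only [nz, decide_eq_true_eq]
            omega
          have hE3 : ∃ i ∈ Q, 7 * i + 3 = E := by
            have := mem_pr hzf
            simpa [st3] using this
          obtain ⟨i, _, hi⟩ := hE3
          have him : i < m := by omega
          have hbt : ∀ {w' M' Y' : List ℕ}, Fct P Q m s e w' M' Y' → ∀ j < 3,
              MVD.Btw (3 * j) (3 * E + 2) M' := by
            intro w' M' Y' hf' j hj
            have h1 := hf'.cv j hj 3 (by norm_num)
              ((hC.1 s (rl e j) (hC.2.2.2.1 e j hj).1).1) i him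
            rw [hi] at h1
            exact h1
          have hz2 : (3 * E + 2) % 3 = 2 := by omega
          -- `Y = r3 ++ z :: (g2 ++ v)`
          have hnz : nz (3 * E + 2) = true := by
            simp only [nz, decide_eq_true_eq]
            omega
          have hfil : pr (st3 Q) = r3.filter nz ++ (3 * E + 2) :: (g2 ++ v).filter nz := by
            rw [← hf.fY, k2, List.filter_append, List.filter_cons_of_pos hnz]
          obtain ⟨⟨A', t, p1, ht⟩, p2⟩ := pr_z (st3 Q) hz2 hfil
          have hr3 : r3 ≠ [] := by
            intro h0
            rw [h0] at p1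
            simp at p1
          constructor
          · by_contra hg1
            -- last letter of `r3`
            rcases List.eq_nil_or_concat r3 with h0 | ⟨r3', x, h0⟩
            · exact hr3 h0
            rw [List.concat_eq_append] at h0
            have k3 : u ++ g1 = (c ++ (pr (stQ Q) ++ r3')) ++ [x] := by
              rw [hr1, k1, h0]; simp
            obtain ⟨g1', q1, q2⟩ := last_mem k3 hg1
            have hx1 : x % 3 ≠ 1 := hg1t x (by rw [q1]; simp)
            have hx2 : x % 3 = 0 := by
              by_contra hx0
              have hxn : nz x = true := by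
                simp only [nz, decide_eq_true_eq]
                exact hx0
              rw [h0, List.filter_append, List.filter_cons_of_pos hxn, List.filter_nil] at p1
              obtain ⟨_, e2⟩ := List.append_inj' p1 rfl
              simp only [List.cons.injEq, and_true] at e2
              rw [e2] at hx1
              exact hx1 ht
            have hxY : x ∈ Y := by rw [k2, h0]; simp
            have hxj : ∃ j < 3, x = 3 * j := by
              rcases hf.nY x hxY hx2 with h | h | h
              · exact ⟨0, by norm_num, by omega⟩
              · exact ⟨1, by norm_num, by omega⟩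
              · exact ⟨2, by norm_num, by omega⟩
            obtain ⟨j, hj, hxj⟩ := hxj
            have hM' : M = (a ++ g1') ++ x :: (3 * E + 2) :: (g2 ++ c) := by
              rw [hM, hg, q1]; simp
            have hY' : Y = r3' ++ x :: (3 * E + 2) :: (g2 ++ v) := by
              rw [k2, h0]; simp
            obtain ⟨Y'', hf''⟩ := main_ex hV hF H hs hf hM' hY'
            have hb1 := hbt hf j hj
            have hb2 := hbt hf'' j hj
            have hc1 := count_M_name hj hf.pM
            have m1 := btw_mem hb1 (A := (a ++ g1') ++ [x]) (B := g2 ++ c)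
              (by rw [hM']; simp) hcz
            have hcz2 := (count_M_z hnd hf''.pM (by simp : 3 * E + 2 ∈
              (a ++ g1') ++ (3 * E + 2) :: x :: (g2 ++ c))).1
            have m2 := btw_mem hb2 (A := a ++ g1') (B := x :: (g2 ++ c)) rfl hcz2
            have n1 := List.count_pos_iff.mpr m1.2
            have n2 := List.count_pos_iff.mpr m2.1
            have hne : (3 * E + 2) ≠ 3 * j := by omega
            rw [hM', ← hxj, List.count_append, List.count_cons_self,
              List.count_cons_of_ne (by rw [hxj]; exact hne)] at hc1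
            rw [← hxj] at n1 n2
            omega
          · by_contra hg2
            cases hg2' : g2 with
            | nil => exact hg2 hg2'
            | cons x l =>
              have hx1 : x % 3 ≠ 1 := hg2t x (by rw [hg2']; simp)
              have hx2 : x % 3 = 0 := by
                by_contra hx0
                have hxn : nz x = true := by
                  simp only [nz, decide_eq_true_eq]
                  exact hx0
                refine hx1 (p2 x ((l ++ v).filter nz) ?_)
                rw [hg2', List.cons_append, List.filter_cons_of_pos hxn]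
              have hxY : x ∈ Y := by rw [k2, hg2']; simp
              have hxj : ∃ j < 3, x = 3 * j := by
                rcases hf.nY x hxY hx2 with h | h | h
                · exact ⟨0, by norm_num, by omega⟩
                · exact ⟨1, by norm_num, by omega⟩
                · exact ⟨2, by norm_num, by omega⟩
              obtain ⟨j, hj, hxj⟩ := hxj
              have hM' : M = (a ++ g1) ++ (3 * E + 2) :: x :: (l ++ c) := by
                rw [hM, hg, hg2']; simp
              have hY' : Y = r3 ++ (3 * E + 2) :: x :: (l ++ v) := by
                rw [k2, hg2']; simp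
              obtain ⟨Y'', hf''⟩ := main_ex hV hF H hs hf hM' hY'
              have hb1 := hbt hf j hj
              have hb2 := hbt hf'' j hj
              have hc1 := count_M_name hj hf.pM
              have m1 := btw_mem hb1 (A := a ++ g1) (B := x :: (l ++ c)) hM' hcz
              have hcz2 := (count_M_z hnd hf''.pM (by simp : 3 * E + 2 ∈
                (a ++ g1) ++ x :: (3 * E + 2) :: (l ++ c))).1
              have m2 := btw_mem hb2 (A := (a ++ g1) ++ [x]) (B := l ++ c)
                (by simp) hcz2
              have n1 := List.count_pos_iff.mpr m1.1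
              have n2 := List.count_pos_iff.mpr m2.2
              have hne : (3 * E + 2) ≠ 3 * j := by omega
              rw [hM', ← hxj, List.count_append, List.count_cons_of_ne (by rw [hxj]; exact hne),
                List.count_cons_self] at hc1
              rw [← hxj] at n1 n2
              omega
        · -- in `pr (stQ Q)` (or at the beginning of `Y`)
          cases c' with
          | nil =>
            have k2' : Y = (3 * E + 2) :: (g2 ++ v) := by simpa using k2.symm
            have := hf.hY _ _ k2'
            omega
          | cons x l =>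
            simp only [List.cons_append, List.cons.injEq] at k2
            rw [← k2.1] at k1
            obtain ⟨⟨A', t, p1, ht⟩, p2⟩ := pr_z (stQ Q) (by omega) k1
            constructor
            · by_contra hg1
              have k3 : u ++ g1 = (c ++ A') ++ [t] := by rw [hr1, p1]; simp
              obtain ⟨g1', q1, _⟩ := last_mem k3 hg1
              exact hg1t t (by rw [q1]; simp) ht
            · cases hg2' : g2 with
              | nil => rfl
              | cons y l' =>
                exfalso
                rw [hg2'] at k2
                refine hg2t y (by rw [hg2']; simp) ?_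
                cases hl : l with
                | nil =>
                  rw [hl] at k2
                  exact hf.hY y (l' ++ v) (by simpa using k2.2.symm)
                | cons y' l'' =>
                  rw [hl] at k2
                  simp only [List.cons_append, List.cons.injEq] at k2
                  rw [k2.2.1]
                  exact p2 y' l'' hl
      · -- `z` is in `pr (stQ Q)`
        obtain ⟨l, k1, k2⟩ := left_of hr2 hzY
        obtain ⟨⟨A', t, p1, ht⟩, p2⟩ := pr_z (stQ Q) (by omega) k1
        constructor
        · by_contra hg1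
          have k3 : u ++ g1 = (c ++ A') ++ [t] := by rw [hr1, p1]; simp
          obtain ⟨g1', q1, _⟩ := last_mem k3 hg1
          exact hg1t t (by rw [q1]; simp) ht
        · cases hg2' : g2 with
          | nil => rfl
          | cons y l' =>
            exfalso
            rw [hg2'] at k2
            refine hg2t y (by rw [hg2']; simp) ?_
            cases hl : l with
            | nil =>
              rw [hl] at k2
              exact hf.hY y (l' ++ v) (by simpa using k2)
            | cons y' l'' =>
              rw [hl] at k2
              simp only [List.cons_append, List.cons.injEq] at k2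
              rw [← k2.1]
              exact p2 y' l'' hl
  rw [hg, key.1, key.2]
  rfl

end Pool.Agent.MWI.H51
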